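import Pool.Agent.Q251.Quiddity

/-!
# Irreducible solutions of `(E_N)` of size `6N/5`
-/

namespace Pool.Agent.Results.MP_8835a9_co.Unbounded

open Pool.Agent.Q251.Quiddity Matrix

/-- The alternating list `p, q, p, q, …` of length `m`. -/
def alt {R : Type} (p q : R) : ℕ → List R
  | 0 => []
  | (m + 1) => p :: alt q p m

lemma length_alt {R : Type} (p q : R) (m : ℕ) : (alt p q m).length = m := by
  induction m generalizing p q with
  | zero => rfl
  | succ m ih => rw [alt, List.length_cons, ih]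

lemma alt_two {R : Type} (p q : R) (m : ℕ) : alt p q (m + 2) = p :: q :: alt p q m := rfl

lemma alt_append_even {R : Type} (p q : R) (k m : ℕ) :
    alt p q (2 * k) ++ alt p q m = alt p q (2 * k + m) := by
  induction k with
  | zero => simp [alt]
  | succ k ih =>
    rw [show 2 * (k + 1) = 2 * k + 2 by ring, alt_two, List.cons_append, List.cons_append, ih,
      show 2 * k + 2 + m = (2 * k + m) + 2 by ring, alt_two]

/-- Rotating an alternating list of even length by one. -/
lemma rotate_one_alt {R : Type} (p q : R) (k : ℕ) :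
    (alt p q (2 * k)).rotate 1 = alt q p (2 * k) := by
  cases k with
  | zero => simp [alt]
  | succ k =>
    rw [show 2 * (k + 1) = 2 * k + 1 + 1 by ring]
    rw [alt, List.rotate_cons_succ, List.rotate_zero]
    have : ∀ (p q : R) (k : ℕ), alt q p (2 * k + 1) ++ [p] = alt q p (2 * k + 2) := by
      intro p q k
      induction k with
      | zero => rfl
      | succ k ih =>
        rw [show 2 * (k + 1) + 1 = (2 * k + 1) + 2 by ring, alt_two, List.cons_append,
          List.cons_append, ih]
        rfl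
    exact this p q k

lemma rotate_alt {R : Type} (p q : R) (k n : ℕ) :
    (alt p q (2 * k)).rotate n = alt p q (2 * k) ∨ (alt p q (2 * k)).rotate n = alt q p (2 * k) := by
  induction n with
  | zero => left; simp
  | succ n ih =>
    rcases ih with h | h
    · right; rw [← List.rotate_rotate, h, rotate_one_alt]
    · left; rw [← List.rotate_rotate, h, rotate_one_alt]

lemma isRotated_alt {R : Type} (p q : R) (k : ℕ) {s : List R} (h : s ~r alt p q (2 * k)) :
    s = alt p q (2 * k) ∨ s = alt q p (2 * k) := by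
  obtain ⟨n, hn⟩ := h.symm
  rw [← hn]
  exact rotate_alt p q k n

lemma reverse_alt {R : Type} (p q : R) (k : ℕ) :
    (alt p q (2 * k)).reverse = alt q p (2 * k) := by
  induction k with
  | zero => rfl
  | succ k ih =>
    rw [show 2 * (k + 1) = 2 * k + 2 by ring, alt_two, List.reverse_cons, List.reverse_cons, ih,
      List.append_assoc]
    exact alt_append_even q p k 2

/-- A suffix of an alternating list is alternating. -/
lemma suffix_alt {R : Type} {p q : R} {m : ℕ} {pre w : List R} (h : pre ++ w = alt p q m) :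
    w = alt p q w.length ∨ w = alt q p w.length := by
  induction pre generalizing p q m with
  | nil =>
    left
    rw [List.nil_append] at h
    rw [h, length_alt]
  | cons a pre ih =>
    cases m with
    | zero => simp [alt] at h
    | succ m =>
      rw [alt, List.cons_append, List.cons.injEq] at h
      exact (ih h.2).symm

/-- Functoriality. -/
lemma M_map {N d : ℕ} (f : ZMod N →+* ZMod d) (l : List (ZMod N)) :
    M (l.map f) = (M l).map f := by
  induction l with
  | nil =>
    rw [List.map_nil, M_nil, M_nil, Matrix.map_one _ (map_zero f) (map_one f)]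
  | cons a l ih =>
    rw [List.map_cons, M_cons, M_cons, ih, Matrix.map_mul]
    congr 1
    ext i j
    fin_cases i <;> fin_cases j <;> simp [A]

lemma alt_map {R S : Type} (f : R → S) (p q : R) (m : ℕ) :
    (alt p q m).map f = alt (f p) (f q) m := by
  induction m generalizing p q with
  | zero => rfl
  | succ m ih => rw [alt, List.map_cons, ih, alt]

/-- Constant tuple `2, …, 2`. -/
lemma M_alt_two {N : ℕ} (m : ℕ) :
    M (alt (2 : ZMod N) 2 m) = !![(m : ZMod N) + 1, -(m : ZMod N); (m : ZMod N), 1 - (m : ZMod N)] := by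
  induction m with
  | zero =>
    rw [alt, M_nil]
    ext i j
    fin_cases i <;> fin_cases j <;> simp
  | succ m ih =>
    rw [alt, M_cons, ih]
    ext i j
    fin_cases i <;> fin_cases j <;> simp [A, Matrix.mul_apply, Fin.sum_univ_two] <;> ring

/-- Modulo `5` the alternating tuples of `3` and `2` have period `6`. -/
lemma M_alt_mod5 (p q : ZMod 5) (h : (p = 3 ∧ q = 2) ∨ (p = 2 ∧ q = 3)) (k r : ℕ) :
    M (alt p q (6 * k + r)) = M (alt p q r) := by
  have h6 : M (alt p q 6) = 1 := by
    rcases h with ⟨rfl, rfl⟩ | ⟨rfl, rfl⟩ <;> decide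
  induction k with
  | zero => simp
  | succ k ih =>
    have : alt p q (6 * (k + 1) + r) = alt p q 6 ++ alt p q (6 * k + r) := by
      rw [show (6 : ℕ) = 2 * 3 by norm_num, alt_append_even]
      congr 1; ring
    rw [this, M_append, h6, mul_one, ih]

lemma mod5_cases (p q : ZMod 5) (h : (p = 3 ∧ q = 2) ∨ (p = 2 ∧ q = 3)) (m : ℕ) :
    (M (alt p q m) 0 0 = 1 → m % 6 = 0) ∧ (M (alt p q m) 0 0 = -1 → m % 6 = 4) := by
  have hm : m = 6 * (m / 6) + m % 6 := (Nat.div_add_mod m 6).symm
  have hlt : m % 6 < 6 := Nat.mod_lt _ (by norm_num)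
  have hM : M (alt p q m) = M (alt p q (m % 6)) := by
    conv_lhs => rw [hm]
    exact M_alt_mod5 p q h _ _
  rw [hM]
  generalize m % 6 = r at hlt
  rcases h with ⟨rfl, rfl⟩ | ⟨rfl, rfl⟩
  · interval_cases r <;> decide
  · interval_cases r <;> decide

/-- For every `K` there is an `N` and an irreducible solution of `(E_N)` of size `6N/5 ≥ N + K`. -/
theorem result : ∀ K : ℕ, ∃ N : ℕ, 2 ≤ N ∧
    ∃ l : List (ZMod N), IsIrreducible l ∧ N + K ≤ l.length ∧ 5 * l.length = 6 * N := by
  intro K
  obtain ⟨m₀, hm₀⟩ : ∃ m₀ : ℕ, m₀ = 30 * K + 1 := ⟨_, rfl⟩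
  obtain ⟨N, hN⟩ : ∃ N : ℕ, N = 5 * m₀ := ⟨_, rfl⟩
  have h5 : 5 ∣ N := ⟨m₀, hN⟩
  have hm : m₀ ∣ N := ⟨5, by rw [hN]; ring⟩
  refine ⟨N, by omega, alt ((m₀ + 2 : ℕ) : ZMod N) 2 (2 * (3 * m₀)), ?_, ?_, ?_⟩
  rotate_left
  · rw [length_alt]; omega
  · rw [length_alt]; omega
  -- reductions of the entries
  obtain ⟨f5, -⟩ : ∃ f : ZMod N →+* ZMod 5, True := ⟨ZMod.castHom h5 (ZMod 5), trivial⟩
  obtain ⟨fm, -⟩ : ∃ f : ZMod N →+* ZMod m₀, True := ⟨ZMod.castHom hm (ZMod m₀), trivial⟩
  have hx5 : f5 ((m₀ + 2 : ℕ) : ZMod N) = 3 := by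
    rw [map_natCast, hm₀]
    have : 30 * K + 1 + 2 = 5 * (6 * K) + 3 := by ring
    rw [this]
    push_cast
    have : (5 : ZMod 5) = 0 := by decide
    rw [this]; ring
  have h25 : f5 (2 : ZMod N) = 2 := map_ofNat _ 2
  have hxm : fm ((m₀ + 2 : ℕ) : ZMod N) = 2 := by
    rw [map_natCast]; push_cast; simp
  have h2m : fm (2 : ZMod N) = 2 := map_ofNat _ 2
  -- the key non-vanishing statement
  have key : ∀ (p q : ZMod N) (m : ℕ),
      ((p = ((m₀ + 2 : ℕ) : ZMod N) ∧ q = 2) ∨ (p = 2 ∧ q = ((m₀ + 2 : ℕ) : ZMod N))) →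
      1 ≤ m → m + 3 ≤ 6 * m₀ → ¬ (M (alt p q m) 0 0 = 1 ∨ M (alt p q m) 0 0 = -1) := by
    intro p q m hpq hm1 hm2 hcon
    -- modulo m₀
    have e1 : fm (M (alt p q m) 0 0) = (m : ZMod m₀) + 1 := by
      have h1 := M_map fm (alt p q m)
      rw [alt_map] at h1
      have h2 : fm p = 2 ∧ fm q = 2 := by
        rcases hpq with ⟨rfl, rfl⟩ | ⟨rfl, rfl⟩
        · exact ⟨hxm, h2m⟩
        · exact ⟨h2m, hxm⟩
      rw [h2.1, h2.2, M_alt_two] at h1
      have h3 := congrFun (congrFun h1 0) 0
      simp only [Matrix.map_apply] at h3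
      rw [← h3]
      simp
    -- modulo 5
    have e2 : ∃ p' q' : ZMod 5, ((p' = 3 ∧ q' = 2) ∨ (p' = 2 ∧ q' = 3)) ∧
        f5 (M (alt p q m) 0 0) = M (alt p' q' m) 0 0 := by
      refine ⟨f5 p, f5 q, ?_, ?_⟩
      · rcases hpq with ⟨rfl, rfl⟩ | ⟨rfl, rfl⟩
        · left; exact ⟨hx5, h25⟩
        · right; exact ⟨h25, hx5⟩
      · have h1 := M_map f5 (alt p q m)
        rw [alt_map] at h1
        rw [h1]
        simp [Matrix.map_apply]
    obtain ⟨p', q', hpq', e2⟩ := e2
    have h6 := mod5_cases p' q' hpq' m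
    rcases hcon with hcon | hcon
    · rw [hcon, map_one] at e1 e2
      have hd6 := h6.1 e2.symm
      have hdm : m₀ ∣ m := by
        rw [← ZMod.natCast_eq_zero_iff]
        have : (m : ZMod m₀) + 1 - 1 = 1 - 1 := by rw [← e1]
        simpa using this
      have hcop : Nat.Coprime 6 m₀ := by
        rw [hm₀, show 30 * K + 1 = 1 + 6 * (5 * K) by ring]
        simp
      have : 6 * m₀ ∣ m := hcop.mul_dvd_of_dvd_of_dvd (Nat.dvd_of_mod_eq_zero hd6) hdm
      have := Nat.le_of_dvd (by omega) this
      omega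
    · rw [hcon, map_neg, map_one] at e1 e2
      have hd6 := h6.2 e2.symm
      have hdm : m₀ ∣ m + 2 := by
        rw [← ZMod.natCast_eq_zero_iff]
        push_cast
        have : (m : ZMod m₀) + 2 = ((m : ZMod m₀) + 1) + 1 := by ring
        rw [this, ← e1]; ring
      have hcop : Nat.Coprime 6 m₀ := by
        rw [hm₀, show 30 * K + 1 = 1 + 6 * (5 * K) by ring]
        simp
      have : 6 * m₀ ∣ m + 2 := hcop.mul_dvd_of_dvd_of_dvd (by omega) hdm
      have := Nat.le_of_dvd (by omega) this
      omega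
  refine ⟨?_, by rw [length_alt]; omega, ?_⟩
  · -- it is a solution
    left
    have hcop : Nat.Coprime 5 m₀ := by
      rw [hm₀, show 30 * K + 1 = 1 + 5 * (6 * K) by ring]
      simp
    have hinj : ∀ a b : ZMod N, f5 a = f5 b →
        fm a = fm b → a = b := by
      intro a b ha hb
      have : NeZero N := ⟨by omega⟩
      rw [← sub_eq_zero, ← map_sub] at ha hb
      rw [← sub_eq_zero]
      generalize a - b = c at ha hb
      obtain ⟨c, rfl⟩ := ZMod.natCast_zmod_surjective c
      rw [map_natCast, ZMod.natCast_eq_zero_iff] at ha hb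
      rw [ZMod.natCast_eq_zero_iff, hN]
      exact hcop.mul_dvd_of_dvd_of_dvd ha hb
    ext i j
    apply hinj
    · have h1 := M_map f5 (alt ((m₀ + 2 : ℕ) : ZMod N) 2 (2 * (3 * m₀)))
      rw [alt_map, hx5, h25] at h1
      have h2 : M (alt (3 : ZMod 5) 2 (2 * (3 * m₀))) = 1 := by
        have := M_alt_mod5 3 2 (Or.inl ⟨rfl, rfl⟩) m₀ 0
        rw [show 2 * (3 * m₀) = 6 * m₀ + 0 by ring, this]
        rfl
      rw [h2] at h1
      have h3 := congrFun (congrFun h1 i) j
      rw [Matrix.map_apply] at h3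
      rw [← h3]
      fin_cases i <;> fin_cases j <;> simp
    · have h1 := M_map fm (alt ((m₀ + 2 : ℕ) : ZMod N) 2 (2 * (3 * m₀)))
      rw [alt_map, hxm, h2m, M_alt_two] at h1
      have h3 := congrFun (congrFun h1 i) j
      rw [Matrix.map_apply] at h3
      rw [← h3]
      fin_cases i <;> fin_cases j <;> simp
  · -- it is not reducible
    rintro ⟨x, y, s, -, hx3, hysol, hy3, ⟨a₁, as, aₙ, b₁, bs, bₘ, hx, hy, hs⟩, heq⟩
    have hs' : s = alt ((m₀ + 2 : ℕ) : ZMod N) 2 (2 * (3 * m₀)) ∨
        s = alt 2 ((m₀ + 2 : ℕ) : ZMod N) (2 * (3 * m₀)) := by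
      rcases heq with h | h
      · exact isRotated_alt _ _ _ h
      · rw [reverse_alt] at h
        exact (isRotated_alt _ _ _ h).symm
    have hlen : s.length = 6 * m₀ := by
      rcases hs' with h | h <;> rw [h, length_alt] <;> ring
    have hbs1 : 1 ≤ bs.length := by
      rw [hy] at hy3
      simp only [List.length_cons, List.length_append, List.length_nil] at hy3
      omega
    have has1 : 1 ≤ as.length := by
      rw [hx] at hx3
      simp only [List.length_cons, List.length_append, List.length_nil] at hx3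
      omega
    have hbs2 : bs.length + 3 ≤ 6 * m₀ := by
      rw [hs] at hlen
      simp only [List.length_cons, List.length_append] at hlen
      omega
    have hcont := continuant_of_solution (hy ▸ hysol)
    have hsplit : ((a₁ + bₘ) :: (as ++ [aₙ + b₁])) ++ bs = s := by
      rw [hs]; simp
    rcases hs' with h | h
    · rw [h] at hsplit
      rcases suffix_alt hsplit with hb | hb
      · rw [hb] at hcont
        exact key _ _ _ (Or.inl ⟨rfl, rfl⟩) hbs1 hbs2 hcont
      · rw [hb] at hcont
        exact key _ _ _ (Or.inr ⟨rfl, rfl⟩) hbs1 hbs2 hcont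
    · rw [h] at hsplit
      rcases suffix_alt hsplit with hb | hb
      · rw [hb] at hcont
        exact key _ _ _ (Or.inr ⟨rfl, rfl⟩) hbs1 hbs2 hcont
      · rw [hb] at hcont
        exact key _ _ _ (Or.inl ⟨rfl, rfl⟩) hbs1 hbs2 hcont

end Pool.Agent.Results.MP_8835a9_co.Unbounded
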